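import Pool.Agent.Lib.MP_abd978_an.PL.Defs

/-!
# Module LAYER: one layer
-/

set_option autoImplicit false

open MeasureTheory Metric Set Filter Topology ContDiff
open scoped Gradient RealInnerProductSpace ENNReal

namespace Pool.Agent.Lib.MP_abd978_an.PL.H19

/-- a bump function on the line: one on `[-1, 1]`, zero off `(-2, 2)` -/
noncomputable def bump : ContDiffBump (0 : ℝ) := ⟨1, 2, one_pos, one_lt_two⟩

theorem bump_one {x : ℝ} (hx : |x| ≤ 1) : bump x = 1 :=
  bump.one_of_mem_closedBall (by simpa [bump] using hx)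

theorem bump_zero {x : ℝ} (hx : 2 ≤ |x|) : bump x = 0 :=
  bump.zero_of_le_dist (by simpa [bump, Real.dist_eq] using hx)

theorem bump_smooth : ContDiff ℝ ∞ (bump : ℝ → ℝ) := bump.contDiff

theorem dbump_one {x : ℝ} (hx : |x| < 1) : deriv bump x = 0 := by
  have h : (bump : ℝ → ℝ) =ᶠ[𝓝 x] 1 :=
    bump.eventuallyEq_one_of_mem_ball (by simpa [bump] using hx)
  rw [h.deriv_eq]
  simp

theorem dbump_two {x : ℝ} (hx : 2 < |x|) : deriv bump x = 0 := by
  have h : x ∉ tsupport (bump : ℝ → ℝ) := by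
    rw [bump.tsupport_eq]
    simpa [bump, Real.dist_eq] using hx
  rw [notMem_tsupport_iff_eventuallyEq] at h
  rw [h.deriv_eq]
  simp

theorem dbump_bound : ∃ C : ℝ, 1 ≤ C ∧ ∀ x, |deriv bump x| ≤ C := by
  have h1 : Continuous (deriv (bump : ℝ → ℝ)) := bump_smooth.continuous_deriv (by simp)
  have h2 : HasCompactSupport (deriv (bump : ℝ → ℝ)) := bump.hasCompactSupport.deriv
  obtain ⟨C, hC⟩ := h1.bounded_above_of_compact_support h2
  exact ⟨max C 1, le_max_right _ _, fun x => (hC x).trans (le_max_left _ _)⟩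

/-- the layer function -/
noncomputable def Fn (σ τ : ℝ) (y : ℝ × ℝ) : ℝ := bump (y.1 / σ) * bump (y.2 / τ)

theorem Fn_smooth (σ τ : ℝ) : ContDiff ℝ ∞ (Fn σ τ) := by
  unfold Fn
  exact (bump_smooth.comp (contDiff_fst.div_const σ)).mul
    (bump_smooth.comp (contDiff_snd.div_const τ))

theorem Fn_compact {σ τ : ℝ} (hσ : 0 < σ) (hτ : 0 < τ) : HasCompactSupport (Fn σ τ) := by
  refine HasCompactSupport.intro (K := Icc (-(2 * σ)) (2 * σ) ×ˢ Icc (-(2 * τ)) (2 * τ))
    (isCompact_Icc.prod isCompact_Icc) ?_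
  intro y hy
  rw [mem_prod, not_and_or] at hy
  rcases hy with h | h
  · have : 2 ≤ |y.1 / σ| := by
      rw [abs_div, abs_of_pos hσ, le_div_iff₀ hσ]
      by_contra hc
      exact h (abs_le.1 (not_le.1 hc).le)
    rw [Fn, bump_zero this, zero_mul]
  · have : 2 ≤ |y.2 / τ| := by
      rw [abs_div, abs_of_pos hτ, le_div_iff₀ hτ]
      by_contra hc
      exact h (abs_le.1 (not_le.1 hc).le)
    rw [Fn, bump_zero this, mul_zero]

theorem Fn_fderiv (σ τ : ℝ) (y : ℝ × ℝ) : HasFDerivAt (Fn σ τ)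
    (bump (y.1 / σ) • ((deriv bump (y.2 / τ) / τ) • ContinuousLinearMap.snd ℝ ℝ ℝ) +
      bump (y.2 / τ) • ((deriv bump (y.1 / σ) / σ) • ContinuousLinearMap.fst ℝ ℝ ℝ)) y := by
  have hd : ∀ x, HasDerivAt (bump : ℝ → ℝ) (deriv bump x) x := fun x =>
    (bump_smooth.differentiable (by simp) x).hasDerivAt
  have h1 : HasFDerivAt (fun y : ℝ × ℝ => bump (y.1 / σ))
      ((deriv bump (y.1 / σ) / σ) • ContinuousLinearMap.fst ℝ ℝ ℝ) y := by
    have h2 : HasFDerivAt (fun y : ℝ × ℝ => y.1 / σ) (σ⁻¹ • ContinuousLinearMap.fst ℝ ℝ ℝ) y := by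
      have := (hasFDerivAt_fst (𝕜 := ℝ) (p := y)).const_mul σ⁻¹
      refine this.congr_of_eventuallyEq (Eventually.of_forall fun q => ?_)
      simp only
      rw [div_eq_inv_mul]
    have h3 := (hd (y.1 / σ)).comp_hasFDerivAt y h2
    refine h3.congr_fderiv ?_
    rw [smul_smul]
    congr 1
  have h1' : HasFDerivAt (fun y : ℝ × ℝ => bump (y.2 / τ))
      ((deriv bump (y.2 / τ) / τ) • ContinuousLinearMap.snd ℝ ℝ ℝ) y := by
    have h2 : HasFDerivAt (fun y : ℝ × ℝ => y.2 / τ) (τ⁻¹ • ContinuousLinearMap.snd ℝ ℝ ℝ) y := by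
      have := (hasFDerivAt_snd (𝕜 := ℝ) (p := y)).const_mul τ⁻¹
      refine this.congr_of_eventuallyEq (Eventually.of_forall fun q => ?_)
      simp only
      rw [div_eq_inv_mul]
    have h3 := (hd (y.2 / τ)).comp_hasFDerivAt y h2
    refine h3.congr_fderiv ?_
    rw [smul_smul]
    congr 1
  exact h1.mul h1'

theorem Fn_s (σ τ : ℝ) (y : ℝ × ℝ) :
    fderiv ℝ (Fn σ τ) y (1, 0) = bump (y.2 / τ) * (deriv bump (y.1 / σ) / σ) := by
  rw [(Fn_fderiv σ τ y).fderiv]
  simp

theorem Fn_t (σ τ : ℝ) (y : ℝ × ℝ) :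
    fderiv ℝ (Fn σ τ) y (0, 1) = bump (y.1 / σ) * (deriv bump (y.2 / τ) / τ) := by
  rw [(Fn_fderiv σ τ y).fderiv]
  simp

theorem factor_le {C σ τ : ℝ} (_hC : 1 ≤ C) (hCb : ∀ x, |deriv bump x| ≤ C) (hσ : 0 < σ)
    (hτ : 0 < τ) (s t : ℝ) :
    |bump (t / τ) * (deriv bump (s / σ) / σ)| ≤
      if σ ≤ |s| ∧ |s| ≤ 2 * σ ∧ |t| ≤ 2 * τ then C * σ⁻¹ else 0 := by
  split_ifs with h
  · rw [abs_mul, abs_div, abs_of_pos hσ]
    have h1 : |(bump (t / τ) : ℝ)| ≤ 1 := by
      rw [abs_of_nonneg bump.nonneg]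
      exact bump.le_one
    calc |(bump (t / τ) : ℝ)| * (|deriv bump (s / σ)| / σ) ≤ 1 * (C / σ) := by
          gcongr
          exact hCb _
      _ = C * σ⁻¹ := by rw [one_mul, div_eq_mul_inv]
  · have h0 : bump (t / τ) * (deriv bump (s / σ) / σ) = 0 := by
      by_contra hne
      apply h
      have hb : (bump (t / τ) : ℝ) ≠ 0 := left_ne_zero_of_mul hne
      have hd : deriv bump (s / σ) ≠ 0 := fun h' => hne (by rw [h']; simp)
      refine ⟨?_, ?_, ?_⟩
      · by_contra hc
        apply hd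
        apply dbump_one
        rw [abs_div, abs_of_pos hσ, div_lt_one hσ]
        exact not_le.1 hc
      · by_contra hc
        apply hd
        apply dbump_two
        rw [abs_div, abs_of_pos hσ, lt_div_iff₀ hσ]
        exact not_le.1 hc
      · by_contra hc
        apply hb
        apply bump_zero
        rw [abs_div, abs_of_pos hτ, le_div_iff₀ hτ]
        exact (not_le.1 hc).le
    rw [h0, abs_zero]

theorem layer (hP : PoinStatement) (hCh : ChtwoStatement) (hE : EmbStatement) :
    LayerStatement := by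
  intro p α β w z r u v V a ε m hpair hr hε hm hm0 hmε
  obtain ⟨c₀, hc₀, hP⟩ := hP 2 z r m hr hm
  obtain ⟨C, hC1, hCb⟩ := dbump_bound
  have hC0 : 0 < C := by linarith
  refine ⟨c₀ / C, by positivity, ?_⟩
  intro j hj hje
  have hjpos : (0:ℝ) < j := by exact_mod_cast hj
  set σ : ℝ := sc p j with hσdef
  set τ : ℝ := tc p j with hτdef
  have hσ : 0 < σ := div_pos (Real.exp_pos _) hjpos
  have hτ : 0 < τ := div_pos (Real.exp_pos _) hjpos
  have hopen : IsOpen (ball z r) := isOpen_ball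
  have hbdd : Bornology.IsBounded (ball z r) := isBounded_ball
  have hu : IsSob volume 1 (ball z r) u V := hE p w (ball z r) u V hpair.wt hpair.sobu
  have hv := hpair.sobv
  have hS := hCh (ball z r) u v V (fun x => rot (a x)) (Fn σ τ) hopen hbdd hu hv
    (Fn_smooth σ τ) (Fn_compact hσ hτ)
  have hone : {x | x ∈ ball z r ∧ u x = 0 ∧ v x = 0} ⊆
      {x | x ∈ ball z r ∧ Fn σ τ (u x, v x) = 1} := by
    intro x hx
    refine ⟨hx.1, ?_⟩
    rw [Fn]
    simp only [hx.2.1, hx.2.2, zero_div]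
    rw [bump_one (by simp)]
    simp
  have hzero : {x | x ∈ ball z r ∧ ε ≤ |u x|} ⊆
      {x | x ∈ ball z r ∧ Fn σ τ (u x, v x) = 0} := by
    intro x hx
    refine ⟨hx.1, ?_⟩
    rw [Fn]
    simp only
    rw [bump_zero, zero_mul]
    rw [abs_div, abs_of_pos hσ, le_div_iff₀ hσ]
    exact hje.trans hx.2
  have hfin : ∀ A : Set (E 2), A ⊆ ball z r → volume A ≠ ⊤ := fun A hA =>
    ((measure_mono hA).trans_lt measure_ball_lt_top).ne
  have h1 := hP (fun x => Fn σ τ (u x, v x)) _ hS
    (hm0.trans (measureReal_mono hone (hfin _ fun x hx => hx.1)))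
    (hmε.trans (measureReal_mono hzero (hfin _ fun x hx => hx.1)))
  -- measurability
  have hum : AEMeasurable u (volume.restrict (ball z r)) := hu.1.aestronglyMeasurable.aemeasurable
  have hvm : AEMeasurable v (volume.restrict (ball z r)) := hv.1.aestronglyMeasurable.aemeasurable
  have hVi : Integrable V (volume.restrict (ball z r)) := by
    have := hu.2.1
    rwa [ENNReal.ofReal_one, memLp_one_iff_integrable] at this
  have hai : Integrable (fun x => ‖a x‖) (volume.restrict (ball z r)) := by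
    have := hv.2.1
    rw [ENNReal.ofReal_one, memLp_one_iff_integrable] at this
    simpa only [norm_rot] using this.norm
  set A : Set (E 2) := {x | x ∈ ball z r ∧ σ ≤ |u x| ∧ |u x| ≤ 2 * σ ∧ |v x| ≤ 2 * τ} with hA
  set A' : Set (E 2) := {x | x ∈ ball z r ∧ |u x| ≤ 2 * σ ∧ τ ≤ |v x| ∧ |v x| ≤ 2 * τ} with hA'
  have hAn : NullMeasurableSet A (volume.restrict (ball z r)) := by
    have h2 : NullMeasurableSet (u ⁻¹' {s | σ ≤ |s| ∧ |s| ≤ 2 * σ}) (volume.restrict (ball z r)) :=
      hum.nullMeasurable ((isClosed_le continuous_const continuous_abs).measurableSet.inter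
        (isClosed_le continuous_abs continuous_const).measurableSet)
    have h3 : NullMeasurableSet (v ⁻¹' {s | |s| ≤ 2 * τ}) (volume.restrict (ball z r)) :=
      hvm.nullMeasurable (isClosed_le continuous_abs continuous_const).measurableSet
    convert (measurableSet_ball.nullMeasurableSet.inter h2).inter h3 using 1
    ext x
    simp only [hA, Set.mem_ofPred_eq, mem_inter_iff, mem_preimage]
    tauto
  have hAn' : NullMeasurableSet A' (volume.restrict (ball z r)) := by
    have h2 : NullMeasurableSet (v ⁻¹' {s | τ ≤ |s| ∧ |s| ≤ 2 * τ}) (volume.restrict (ball z r)) :=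
      hvm.nullMeasurable ((isClosed_le continuous_const continuous_abs).measurableSet.inter
        (isClosed_le continuous_abs continuous_const).measurableSet)
    have h3 : NullMeasurableSet (u ⁻¹' {s | |s| ≤ 2 * σ}) (volume.restrict (ball z r)) :=
      hum.nullMeasurable (isClosed_le continuous_abs continuous_const).measurableSet
    convert (measurableSet_ball.nullMeasurableSet.inter h3).inter h2 using 1
    ext x
    simp only [hA', Set.mem_ofPred_eq, mem_inter_iff, mem_preimage]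
    tauto
  have hind : ∀ (S : Set (E 2)) (f : E 2 → ℝ), S ⊆ ball z r →
      NullMeasurableSet S (volume.restrict (ball z r)) →
      ∫ x in ball z r, S.indicator f x = ∫ x in S, f x := by
    intro S f hS hSn
    rw [integral_indicator₀ hSn, Measure.restrict_restrict₀ hSn, inter_eq_left.2 hS]
  have h2 : ∫ x in ball z r, ‖fderiv ℝ (Fn σ τ) (u x, v x) (1, 0) • V x +
      fderiv ℝ (Fn σ τ) (u x, v x) (0, 1) • rot (a x)‖ ≤
      ∫ x in ball z r, (C * σ⁻¹ * A.indicator (fun x => ‖V x‖) x +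
        C * τ⁻¹ * A'.indicator (fun x => ‖a x‖) x) := by
    have hi1 : Integrable (fun x => C * σ⁻¹ * A.indicator (fun x => ‖V x‖) x)
        (volume.restrict (ball z r)) := (hVi.norm.indicator₀ hAn).const_mul _
    have hi2 : Integrable (fun x => C * τ⁻¹ * A'.indicator (fun x => ‖a x‖) x)
        (volume.restrict (ball z r)) := (hai.indicator₀ hAn').const_mul _
    refine integral_mono_of_nonneg (Eventually.of_forall fun _ => norm_nonneg _) (hi1.add hi2) ?_
    filter_upwards [ae_restrict_mem measurableSet_ball] with x hx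
    refine (norm_add_le _ _).trans (add_le_add ?_ ?_)
    · rw [norm_smul, Real.norm_eq_abs, Fn_s]
      have h3 := factor_le hC1 hCb hσ hτ (u x) (v x)
      by_cases hxA : x ∈ A
      · rw [indicator_of_mem hxA]
        rw [if_pos hxA.2] at h3
        exact mul_le_mul_of_nonneg_right h3 (norm_nonneg _)
      · rw [indicator_of_notMem hxA]
        rw [if_neg fun h => hxA ⟨hx, h⟩] at h3
        have h4 : |bump (v x / τ) * (deriv bump (u x / σ) / σ)| = 0 :=
          le_antisymm h3 (abs_nonneg _)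
        rw [h4]; simp
    · rw [norm_smul, Real.norm_eq_abs, Fn_t, norm_rot]
      have h3 := factor_le hC1 hCb hτ hσ (v x) (u x)
      by_cases hxA : x ∈ A'
      · rw [indicator_of_mem hxA]
        rw [if_pos ⟨hxA.2.2.1, hxA.2.2.2, hxA.2.1⟩] at h3
        exact mul_le_mul_of_nonneg_right h3 (norm_nonneg _)
      · rw [indicator_of_notMem hxA]
        rw [if_neg fun h => hxA ⟨hx, h.2.2, h.1, h.2.1⟩] at h3
        have h4 : |bump (u x / σ) * (deriv bump (v x / τ) / τ)| = 0 :=
          le_antisymm h3 (abs_nonneg _)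
        rw [h4]; simp
  have hi1 : Integrable (fun x => C * σ⁻¹ * A.indicator (fun x => ‖V x‖) x)
      (volume.restrict (ball z r)) := (hVi.norm.indicator₀ hAn).const_mul _
  have hi2 : Integrable (fun x => C * τ⁻¹ * A'.indicator (fun x => ‖a x‖) x)
      (volume.restrict (ball z r)) := (hai.indicator₀ hAn').const_mul _
  rw [integral_add hi1 hi2, integral_const_mul, integral_const_mul,
    hind A _ (fun x hx => hx.1) hAn, hind A' _ (fun x hx => hx.1) hAn'] at h2
  rw [div_le_iff₀ hC0]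
  calc c₀ ≤ _ := h1
    _ ≤ _ := h2
    _ = _ := by ring

end Pool.Agent.Lib.MP_abd978_an.PL.H19
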