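import Pool.Agent.Lib.MP_abd978_an.PL.Defs

/-!
# Module POIN: a Poincaré inequality in `L¹`
-/

set_option autoImplicit false

open MeasureTheory Metric Set Filter Topology ContDiff
open scoped Gradient RealInnerProductSpace ENNReal

namespace Pool.Agent.Lib.MP_abd978_an.PL.H19

variable {n : ℕ}

theorem lint_affine {h : E n → ℝ≥0∞} (hh : Measurable h) (a : E n) {t : ℝ} (ht : 1 / 2 ≤ t) :
    ∫⁻ y, h (a + t • y) ≤ 2 ^ n * ∫⁻ y, h y := by
  have ht0 : 0 < t := by linarith
  have h1 : ∫⁻ y, h (a + t • y) = ∫⁻ w, h (a + w) ∂(Measure.map (fun y : E n => t • y) volume) :=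
    (lintegral_map (f := fun w => h (a + w)) (hh.comp (measurable_const_add a))
      (measurable_const_smul t)).symm
  rw [h1, Measure.map_addHaar_smul volume ht0.ne', lintegral_smul_measure,
    lintegral_add_left_eq_self (fun w => h w) a, smul_eq_mul]
  refine mul_le_mul_left ?_ _
  rw [finrank_euclideanSpace_fin]
  have h2 : |(t ^ n)⁻¹| ≤ 2 ^ n := by
    rw [abs_of_pos (by positivity), ← inv_pow]
    refine pow_le_pow_left₀ (by positivity) ?_ n
    rw [inv_le_comm₀ ht0 (by norm_num)]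
    linarith
  calc ENNReal.ofReal |(t ^ n)⁻¹| ≤ ENNReal.ofReal (2 ^ n) := ENNReal.ofReal_le_ofReal h2
    _ = 2 ^ n := by
      rw [ENNReal.ofReal_pow (by norm_num)]
      norm_num

theorem seg_le {z : E n} {r : ℝ} {φ : E n → ℝ} (hφ : ContDiffOn ℝ ∞ φ (ball z r)) {x y : E n}
    (hx : x ∈ ball z r) (hy : y ∈ ball z r) :
    ‖φ x - φ y‖ₑ ≤ ENNReal.ofReal (2 * r) *
      ∫⁻ t in Icc (0 : ℝ) 1, (ball z r).indicator (fun w => ‖∇ φ w‖ₑ) (x + t • (y - x)) := by
  have hseg : ∀ t ∈ Icc (0:ℝ) 1, x + t • (y - x) ∈ ball z r := fun t ht =>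
    (convex_ball z r).add_smul_sub_mem hx hy ht
  have hd : ∀ w ∈ ball z r, HasFDerivAt φ (fderiv ℝ φ w) w := fun w hw =>
    ((hφ.differentiableOn (by simp)).differentiableAt (isOpen_ball.mem_nhds hw)).hasFDerivAt
  have hder : ∀ t ∈ uIcc (0:ℝ) 1, HasDerivAt (fun t : ℝ => φ (x + t • (y - x)))
      (⟪∇ φ (x + t • (y - x)), y - x⟫) t := by
    intro t ht
    rw [uIcc_of_le zero_le_one] at ht
    have h1 : HasDerivAt (fun t : ℝ => x + t • (y - x)) (y - x) t := by
      simpa using ((hasDerivAt_id t).smul_const (y - x)).const_add x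
    have h2 := (hd _ (hseg t ht)).comp_hasDerivAt t h1
    rw [gradient, InnerProductSpace.toDual_symm_apply]
    exact h2
  have hgc : ContinuousOn (fun w => ∇ φ w) (ball z r) := by
    have h1 : ContinuousOn (fderiv ℝ φ) (ball z r) :=
      hφ.continuousOn_fderiv_of_isOpen isOpen_ball (by simp)
    exact (InnerProductSpace.toDual ℝ (E n)).symm.continuous.comp_continuousOn h1
  have hcont : ContinuousOn (fun t : ℝ => ⟪∇ φ (x + t • (y - x)), y - x⟫) (Icc (0:ℝ) 1) := by
    refine ContinuousOn.inner ?_ continuousOn_const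
    exact hgc.comp (by fun_prop) hseg
  have hint : IntervalIntegrable (fun t : ℝ => ⟪∇ φ (x + t • (y - x)), y - x⟫) volume 0 1 := by
    apply ContinuousOn.intervalIntegrable
    rwa [uIcc_of_le zero_le_one]
  have hFTC := intervalIntegral.integral_eq_sub_of_hasDerivAt hder hint
  simp only [one_smul, add_sub_cancel, zero_smul, add_zero] at hFTC
  rw [← enorm_neg, neg_sub, ← hFTC, intervalIntegral.integral_of_le zero_le_one]
  refine (enorm_integral_le_lintegral_enorm _).trans ?_
  have hxy : ‖y - x‖ₑ ≤ ENNReal.ofReal (2 * r) := by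
    rw [← ofReal_norm]
    refine ENNReal.ofReal_le_ofReal ?_
    rw [← dist_eq_norm]
    have h1 := dist_triangle_right y x z
    have h2 : dist y z < r := hy
    have h3 : dist x z < r := hx
    linarith
  calc ∫⁻ t in Ioc (0:ℝ) 1, ‖⟪∇ φ (x + t • (y - x)), y - x⟫‖ₑ
      ≤ ∫⁻ t in Ioc (0:ℝ) 1, ENNReal.ofReal (2 * r) *
          (ball z r).indicator (fun w => ‖∇ φ w‖ₑ) (x + t • (y - x)) := by
        refine setLIntegral_mono' measurableSet_Ioc fun t ht => ?_
        have ht' : t ∈ Icc (0:ℝ) 1 := ⟨ht.1.le, ht.2⟩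
        rw [indicator_of_mem (hseg t ht')]
        calc ‖⟪∇ φ (x + t • (y - x)), y - x⟫‖ₑ ≤ ‖∇ φ (x + t • (y - x))‖ₑ * ‖y - x‖ₑ := by
              rw [← ofReal_norm, ← ofReal_norm, ← ofReal_norm,
                ← ENNReal.ofReal_mul (norm_nonneg _)]
              exact ENNReal.ofReal_le_ofReal (norm_inner_le_norm _ _)
          _ ≤ _ := by
              rw [mul_comm]
              gcongr
    _ = ENNReal.ofReal (2 * r) * ∫⁻ t in Ioc (0:ℝ) 1,
          (ball z r).indicator (fun w => ‖∇ φ w‖ₑ) (x + t • (y - x)) :=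
        lintegral_const_mul' _ _ ENNReal.ofReal_ne_top
    _ ≤ _ := by
        gcongr
        exact Ioc_subset_Icc_self

/-- the segment integral -/
theorem triple_le {h : E n → ℝ≥0∞} (hh : Measurable h) (B : Set (E n)) :
    ∫⁻ x in B, ∫⁻ y in B, ∫⁻ t in Icc (0 : ℝ) 1, h (x + t • (y - x)) ≤
      2 ^ n * volume B * ∫⁻ y, h y := by
  have hm : Measurable fun p : E n × E n × ℝ => h (p.1 + p.2.2 • (p.2.1 - p.1)) :=
    hh.comp (by fun_prop)
  -- split the interval
  have hsplit : ∀ x y : E n, ∫⁻ t in Icc (0 : ℝ) 1, h (x + t • (y - x)) ≤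
      (∫⁻ t in Icc (1 / 2 : ℝ) 1, h (x + t • (y - x))) +
      ∫⁻ t in Icc (0 : ℝ) (1 / 2), h (x + t • (y - x)) := by
    intro x y
    have hsub : Icc (0:ℝ) 1 ⊆ Icc (1 / 2 : ℝ) 1 ∪ Icc (0 : ℝ) (1 / 2) := by
      intro t ht
      rcases le_total (1 / 2) t with h | h
      · exact Or.inl ⟨h, ht.2⟩
      · exact Or.inr ⟨ht.1, h⟩
    exact (lintegral_mono_set hsub).trans (lintegral_union_le _ _ _)
  have hvol : volume (Icc (1 / 2 : ℝ) 1) = ENNReal.ofReal (1 / 2) := by
    rw [Real.volume_Icc]; norm_num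
  have hvol' : volume (Icc (0 : ℝ) (1 / 2)) = ENNReal.ofReal (1 / 2) := by
    rw [Real.volume_Icc]; norm_num
  -- first half: `y` moves
  have hA : ∫⁻ x in B, ∫⁻ y in B, ∫⁻ t in Icc (1 / 2 : ℝ) 1, h (x + t • (y - x)) ≤
      ENNReal.ofReal (1 / 2) * (2 ^ n * volume B * ∫⁻ y, h y) := by
    have h1 : ∀ x : E n, ∫⁻ y in B, ∫⁻ t in Icc (1 / 2 : ℝ) 1, h (x + t • (y - x)) ≤
        ENNReal.ofReal (1 / 2) * (2 ^ n * ∫⁻ y, h y) := by
      intro x
      rw [lintegral_lintegral_swap]
      · calc ∫⁻ t in Icc (1 / 2 : ℝ) 1, ∫⁻ y in B, h (x + t • (y - x))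
            ≤ ∫⁻ t in Icc (1 / 2 : ℝ) 1, 2 ^ n * ∫⁻ y, h y := by
              refine setLIntegral_mono' measurableSet_Icc fun t ht => ?_
              refine (setLIntegral_le_lintegral _ _).trans ?_
              have h2 := lint_affine hh ((1 - t) • x) ht.1
              refine le_trans (le_of_eq ?_) h2
              refine lintegral_congr fun y => ?_
              congr 1
              rw [smul_sub, sub_smul, one_smul]
              abel
          _ = _ := by
              rw [lintegral_const, Measure.restrict_apply_univ, hvol, mul_comm]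
      · apply Measurable.aemeasurable
        exact hh.comp (by fun_prop)
    calc ∫⁻ x in B, ∫⁻ y in B, ∫⁻ t in Icc (1 / 2 : ℝ) 1, h (x + t • (y - x))
        ≤ ∫⁻ x in B, ENNReal.ofReal (1 / 2) * (2 ^ n * ∫⁻ y, h y) := lintegral_mono fun x => h1 x
      _ = _ := by
        rw [lintegral_const, Measure.restrict_apply_univ]
        ring
  have hB : ∫⁻ x in B, ∫⁻ y in B, ∫⁻ t in Icc (0 : ℝ) (1 / 2), h (x + t • (y - x)) ≤
      ENNReal.ofReal (1 / 2) * (2 ^ n * volume B * ∫⁻ y, h y) := by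
    have h1 : ∀ y : E n, ∫⁻ x in B, ∫⁻ t in Icc (0 : ℝ) (1 / 2), h (x + t • (y - x)) ≤
        ENNReal.ofReal (1 / 2) * (2 ^ n * ∫⁻ y, h y) := by
      intro y
      rw [lintegral_lintegral_swap]
      · calc ∫⁻ t in Icc (0 : ℝ) (1 / 2), ∫⁻ x in B, h (x + t • (y - x))
            ≤ ∫⁻ t in Icc (0 : ℝ) (1 / 2), 2 ^ n * ∫⁻ y, h y := by
              refine setLIntegral_mono' measurableSet_Icc fun t ht => ?_
              refine (setLIntegral_le_lintegral _ _).trans ?_
              have h2 := lint_affine hh (t • y) (t := 1 - t) (by linarith [ht.2])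
              refine le_trans (le_of_eq ?_) h2
              refine lintegral_congr fun x => ?_
              congr 1
              rw [smul_sub, sub_smul, one_smul]
              abel
          _ = _ := by
              rw [lintegral_const, Measure.restrict_apply_univ, hvol', mul_comm]
      · apply Measurable.aemeasurable
        exact hh.comp (by fun_prop)
    rw [lintegral_lintegral_swap]
    · calc ∫⁻ y in B, ∫⁻ x in B, ∫⁻ t in Icc (0 : ℝ) (1 / 2), h (x + t • (y - x))
          ≤ ∫⁻ y in B, ENNReal.ofReal (1 / 2) * (2 ^ n * ∫⁻ y, h y) :=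
            lintegral_mono fun y => h1 y
        _ = _ := by
          rw [lintegral_const, Measure.restrict_apply_univ]
          ring
    · apply Measurable.aemeasurable
      apply Measurable.lintegral_prod_right'
        (f := fun q : (E n × E n) × ℝ => h (q.1.1 + q.2 • (q.1.2 - q.1.1)))
      exact hh.comp (by fun_prop)
  calc ∫⁻ x in B, ∫⁻ y in B, ∫⁻ t in Icc (0 : ℝ) 1, h (x + t • (y - x))
      ≤ ∫⁻ x in B, ∫⁻ y in B, ((∫⁻ t in Icc (1 / 2 : ℝ) 1, h (x + t • (y - x))) +
          ∫⁻ t in Icc (0 : ℝ) (1 / 2), h (x + t • (y - x))) :=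
        lintegral_mono fun x => lintegral_mono fun y => hsplit x y
    _ = (∫⁻ x in B, ∫⁻ y in B, ∫⁻ t in Icc (1 / 2 : ℝ) 1, h (x + t • (y - x))) +
          ∫⁻ x in B, ∫⁻ y in B, ∫⁻ t in Icc (0 : ℝ) (1 / 2), h (x + t • (y - x)) := by
        rw [← lintegral_add_left]
        · refine lintegral_congr fun x => ?_
          rw [lintegral_add_left]
          apply Measurable.lintegral_prod_right'
            (f := fun q : E n × ℝ => h (x + q.2 • (q.1 - x)))
          exact hh.comp (by fun_prop)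
        · apply Measurable.lintegral_prod_right'
            (f := fun q : E n × E n => ∫⁻ t in Icc (1 / 2 : ℝ) 1, h (q.1 + t • (q.2 - q.1)))
          apply Measurable.lintegral_prod_right'
            (f := fun q : (E n × E n) × ℝ => h (q.1.1 + q.2 • (q.1.2 - q.1.1)))
          exact hh.comp (by fun_prop)
    _ ≤ ENNReal.ofReal (1 / 2) * (2 ^ n * volume B * ∫⁻ y, h y) +
          ENNReal.ofReal (1 / 2) * (2 ^ n * volume B * ∫⁻ y, h y) := add_le_add hA hB
    _ = 2 ^ n * volume B * ∫⁻ y, h y := by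
        rw [← add_mul, ← ENNReal.ofReal_add (by norm_num) (by norm_num)]
        norm_num

/-- the smooth case -/
theorem smooth_le {z : E n} {r : ℝ} {φ : E n → ℝ} (hφ : ContDiffOn ℝ ∞ φ (ball z r)) :
    ∫⁻ x in ball z r, ∫⁻ y in ball z r, ‖φ x - φ y‖ₑ ≤
      ENNReal.ofReal (2 * r) * (2 ^ n * volume (ball z r)) * ∫⁻ x in ball z r, ‖∇ φ x‖ₑ := by
  set h : E n → ℝ≥0∞ := (ball z r).indicator (fun w => ‖∇ φ w‖ₑ) with hh
  have hgc : ContinuousOn (fun w => ∇ φ w) (ball z r) := by
    have h1 : ContinuousOn (fderiv ℝ φ) (ball z r) :=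
      hφ.continuousOn_fderiv_of_isOpen isOpen_ball (by simp)
    exact (InnerProductSpace.toDual ℝ (E n)).symm.continuous.comp_continuousOn h1
  have hm : Measurable h := by
    classical
    have h1 : ContinuousOn (fun w => ‖∇ φ w‖ₑ) (ball z r) := hgc.enorm
    rw [hh, ← piecewise_eq_indicator]
    exact h1.measurable_piecewise continuousOn_const measurableSet_ball
  have h1 : ∫⁻ x in ball z r, ∫⁻ y in ball z r, ‖φ x - φ y‖ₑ ≤
      ∫⁻ x in ball z r, ∫⁻ y in ball z r, ENNReal.ofReal (2 * r) *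
        ∫⁻ t in Icc (0 : ℝ) 1, h (x + t • (y - x)) :=
    setLIntegral_mono' measurableSet_ball fun x hx =>
      setLIntegral_mono' measurableSet_ball fun y hy => seg_le hφ hx hy
  refine h1.trans ?_
  simp_rw [lintegral_const_mul' _ _ ENNReal.ofReal_ne_top]
  rw [mul_assoc]
  gcongr
  refine (triple_le hm _).trans (le_of_eq ?_)
  rw [hh, lintegral_indicator measurableSet_ball]

/-- the Sobolev case -/
theorem sob_le {z : E n} {r : ℝ} {g : E n → ℝ} {G : E n → E n}
    (hg : IsSob volume 1 (ball z r) g G) :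
    ∫⁻ x in ball z r, ∫⁻ y in ball z r, ‖g x - g y‖ₑ ≤
      ENNReal.ofReal (2 * r) * (2 ^ n * volume (ball z r)) * ∫⁻ x in ball z r, ‖G x‖ₑ := by
  obtain ⟨hgL, hGL, φ, hφ, h1, h2⟩ := hg
  set C : ℝ≥0∞ := ENNReal.ofReal (2 * r) * (2 ^ n * volume (ball z r)) with hC
  have hCtop : C ≠ ⊤ := by
    rw [hC]
    exact ENNReal.mul_ne_top ENNReal.ofReal_ne_top (ENNReal.mul_ne_top (by simp)
      measure_ball_lt_top.ne)
  simp only [ENNReal.ofReal_one, eLpNorm_one_eq_lintegral_enorm] at h1 h2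
  have key : ∀ i, ∫⁻ x in ball z r, ∫⁻ y in ball z r, ‖g x - g y‖ₑ ≤
      (2 * volume (ball z r) * ∫⁻ x in ball z r, ‖φ i x - g x‖ₑ) +
        C * ((∫⁻ x in ball z r, ‖∇ (φ i) x - G x‖ₑ) + ∫⁻ x in ball z r, ‖G x‖ₑ) := by
    intro i
    have hφc : ContinuousOn (φ i) (ball z r) := (hφ i).continuousOn
    have hφm : AEMeasurable (φ i) (volume.restrict (ball z r)) :=
      hφc.aemeasurable measurableSet_ball
    have hgm : AEMeasurable g (volume.restrict (ball z r)) := hgL.aestronglyMeasurable.aemeasurable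
    have hdm : AEMeasurable (fun x => ‖φ i x - g x‖ₑ) (volume.restrict (ball z r)) :=
      (hφm.sub hgm).enorm
    have ha : ∀ x y, ‖g x - g y‖ₑ ≤ ‖φ i x - g x‖ₑ + (‖φ i y - g y‖ₑ + ‖φ i x - φ i y‖ₑ) := by
      intro x y
      have e : g x - g y = -(φ i x - g x) + ((φ i y - g y) + (φ i x - φ i y)) := by ring
      rw [e]
      refine (enorm_add_le _ _).trans ?_
      rw [enorm_neg]
      gcongr
      exact enorm_add_le _ _
    have hb : ∫⁻ x in ball z r, ∫⁻ y in ball z r, ‖g x - g y‖ₑ ≤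
        ∫⁻ x in ball z r, (‖φ i x - g x‖ₑ * volume (ball z r) +
          ((∫⁻ y in ball z r, ‖φ i y - g y‖ₑ) + ∫⁻ y in ball z r, ‖φ i x - φ i y‖ₑ)) := by
      refine lintegral_mono fun x => ?_
      calc ∫⁻ y in ball z r, ‖g x - g y‖ₑ
          ≤ ∫⁻ y in ball z r, (‖φ i x - g x‖ₑ + (‖φ i y - g y‖ₑ + ‖φ i x - φ i y‖ₑ)) :=
            lintegral_mono fun y => ha x y
        _ = _ := by
            rw [lintegral_add_left' aemeasurable_const, lintegral_add_left' hdm, lintegral_const,
              Measure.restrict_apply_univ]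
    refine hb.trans ?_
    rw [lintegral_add_left' (hdm.mul_const _), lintegral_add_left' aemeasurable_const,
      lintegral_const, Measure.restrict_apply_univ, lintegral_mul_const'' _ hdm]
    have hc := smooth_le (hφ i)
    have hd : ∫⁻ x in ball z r, ‖∇ (φ i) x‖ₑ ≤
        (∫⁻ x in ball z r, ‖∇ (φ i) x - G x‖ₑ) + ∫⁻ x in ball z r, ‖G x‖ₑ := by
      have hGm : AEMeasurable (fun x => ‖G x‖ₑ) (volume.restrict (ball z r)) :=
        hGL.aestronglyMeasurable.enorm
      rw [← lintegral_add_right' _ hGm]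
      refine lintegral_mono fun x => ?_
      calc ‖∇ (φ i) x‖ₑ = ‖(∇ (φ i) x - G x) + G x‖ₑ := by rw [sub_add_cancel]
        _ ≤ _ := enorm_add_le _ _
    calc (∫⁻ x in ball z r, ‖φ i x - g x‖ₑ) * volume (ball z r) +
          ((∫⁻ y in ball z r, ‖φ i y - g y‖ₑ) * volume (ball z r) +
            ∫⁻ x in ball z r, ∫⁻ y in ball z r, ‖φ i x - φ i y‖ₑ)
        = (2 * volume (ball z r) * ∫⁻ x in ball z r, ‖φ i x - g x‖ₑ) +
            ∫⁻ x in ball z r, ∫⁻ y in ball z r, ‖φ i x - φ i y‖ₑ := by ring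
      _ ≤ _ := by
        gcongr
        refine hc.trans ?_
        gcongr
  have hlim : Tendsto (fun i => (2 * volume (ball z r) * ∫⁻ x in ball z r, ‖φ i x - g x‖ₑ) +
        C * ((∫⁻ x in ball z r, ‖∇ (φ i) x - G x‖ₑ) + ∫⁻ x in ball z r, ‖G x‖ₑ)) atTop
      (𝓝 (2 * volume (ball z r) * 0 + C * (0 + ∫⁻ x in ball z r, ‖G x‖ₑ))) := by
    refine Tendsto.add ?_ ?_
    · exact ENNReal.Tendsto.const_mul h1
        (Or.inr (ENNReal.mul_ne_top (by norm_num) measure_ball_lt_top.ne))
    · exact ENNReal.Tendsto.const_mul (h2.add_const _) (Or.inr hCtop)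
  have := ge_of_tendsto' hlim key
  simpa using this

theorem poin : PoinStatement := by
  intro n z r m hr hm
  set C : ℝ := 2 * r * (2 ^ n * (volume (ball z r)).toReal) with hC
  have hvpos : 0 < (volume (ball z r)).toReal :=
    ENNReal.toReal_pos (measure_ball_pos _ _ hr).ne' measure_ball_lt_top.ne
  have hCpos : 0 < C := by positivity
  refine ⟨m * m / C, by positivity, ?_⟩
  intro g G hg hm1 hm0
  have h1 := sob_le hg
  have hgL := hg.1
  have hgm : AEMeasurable g (volume.restrict (ball z r)) := hgL.aestronglyMeasurable.aemeasurable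
  set A1 : Set (E n) := {x | x ∈ ball z r ∧ g x = 1} with hA1
  set A0 : Set (E n) := {x | x ∈ ball z r ∧ g x = 0} with hA0
  have hnull : ∀ c : ℝ, NullMeasurableSet {x | x ∈ ball z r ∧ g x = c} volume := by
    intro c
    have h2 : NullMeasurableSet (g ⁻¹' {c}) (volume.restrict (ball z r)) :=
      hgm.nullMeasurable (measurableSet_singleton c)
    rw [nullMeasurableSet_restrict measurableSet_ball.nullMeasurableSet] at h2
    convert h2 using 1
    ext x
    simp [and_comm]
  have hsub1 : A1 ⊆ ball z r := fun x hx => hx.1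
  have hsub0 : A0 ⊆ ball z r := fun x hx => hx.1
  have hfin : ∀ A : Set (E n), A ⊆ ball z r → volume A ≠ ⊤ := fun A hA =>
    ((measure_mono hA).trans_lt measure_ball_lt_top).ne
  have hm1' : ENNReal.ofReal m ≤ volume A1 :=
    (ENNReal.ofReal_le_iff_le_toReal (hfin _ hsub1)).2 hm1
  have hm0' : ENNReal.ofReal m ≤ volume A0 :=
    (ENNReal.ofReal_le_iff_le_toReal (hfin _ hsub0)).2 hm0
  have h2 : ENNReal.ofReal m * ENNReal.ofReal m ≤
      ∫⁻ x in ball z r, ∫⁻ y in ball z r, ‖g x - g y‖ₑ := by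
    calc ENNReal.ofReal m * ENNReal.ofReal m ≤ volume A0 * volume A1 := by gcongr
      _ = ∫⁻ _ in A1, volume A0 := by
          rw [lintegral_const, Measure.restrict_apply_univ]
      _ ≤ ∫⁻ x in A1, ∫⁻ y in ball z r, ‖g x - g y‖ₑ := by
          refine lintegral_mono_ae ?_
          filter_upwards [ae_restrict_mem₀ (hnull 1)] with x hx
          calc volume A0 = ∫⁻ _ in A0, 1 := by
                rw [lintegral_const, Measure.restrict_apply_univ, one_mul]
            _ ≤ ∫⁻ y in A0, ‖g x - g y‖ₑ := by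
                refine lintegral_mono_ae ?_
                filter_upwards [ae_restrict_mem₀ (hnull 0)] with y hy
                rw [hx.2, hy.2]
                simp
            _ ≤ _ := lintegral_mono_set hsub0
      _ ≤ _ := lintegral_mono_set hsub1
  have hGint : Integrable G (volume.restrict (ball z r)) := by
    have := hg.2.1
    rw [ENNReal.ofReal_one, memLp_one_iff_integrable] at this
    exact this
  have h3 : ∫⁻ x in ball z r, ‖G x‖ₑ = ENNReal.ofReal (∫ x in ball z r, ‖G x‖) :=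
    (ofReal_integral_norm_eq_lintegral_enorm hGint).symm
  have h4 : ENNReal.ofReal (2 * r) * (2 ^ n * volume (ball z r)) = ENNReal.ofReal C := by
    rw [hC, ENNReal.ofReal_mul (p := 2 * r) (by positivity),
      ENNReal.ofReal_mul (p := 2 ^ n) (by positivity),
      ENNReal.ofReal_toReal measure_ball_lt_top.ne, ENNReal.ofReal_pow (by norm_num)]
    norm_num
  have h5 := h2.trans h1
  rw [h3, h4, ← ENNReal.ofReal_mul hm.le, ← ENNReal.ofReal_mul hCpos.le] at h5
  have h6 : m * m ≤ C * ∫ x in ball z r, ‖G x‖ := by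
    rwa [ENNReal.ofReal_le_ofReal_iff] at h5
    exact mul_nonneg hCpos.le (integral_nonneg fun _ => norm_nonneg _)
  rw [div_le_iff₀ hCpos, mul_comm (∫ x in ball z r, ‖G x‖)]
  exact h6

end Pool.Agent.Lib.MP_abd978_an.PL.H19
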